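import Pool.Agent.H15.F8.Targets

/-! # Module G1: Hilbert 90 for continuous cocycles of a subgroup of the absolute Galois group -/

open scoped Classical in
theorem F8.h90Stmt : F8.H90Stmt := by
  intro H χ hne hcoc ⟨L, hfin, hL⟩
  have hfin' : Finite (L →ₐ[ℚ] F8.Qbar) := inferInstance
  let _ : Fintype (L →ₐ[ℚ] F8.Qbar) := Fintype.ofFinite _
  -- restriction to `L`
  let rs : F8.Gam → (L →ₐ[ℚ] F8.Qbar) := fun s => (s : F8.Qbar →ₐ[ℚ] F8.Qbar).comp L.val
  have rs_mul : ∀ s t : F8.Gam, rs (s * t) = (s : F8.Qbar →ₐ[ℚ] F8.Qbar).comp (rs t) := by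
    intro s t; rfl
  -- the cocycle depends only on the restriction
  have hwd : ∀ s ∈ H, ∀ t ∈ H, rs s = rs t → χ s = χ t := by
    intro s hs t ht hst
    have h1 : s⁻¹ * t ∈ L.fixingSubgroup := by
      rw [IntermediateField.mem_fixingSubgroup_iff]
      intro a ha
      have h2 : s a = t a := by
        have := DFunLike.congr_fun hst (⟨a, ha⟩ : L)
        exact this
      rw [AlgEquiv.mul_apply, ← h2, ← AlgEquiv.mul_apply, inv_mul_cancel, AlgEquiv.one_apply]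
    have h3 : s⁻¹ * t ∈ H := H.mul_mem (H.inv_mem hs) ht
    have h4 := hcoc s hs (s⁻¹ * t) h3
    rw [hL _ h3 h1, map_one, mul_one, mul_inv_cancel_left] at h4
    exact h4.symm
  let c : (L →ₐ[ℚ] F8.Qbar) → F8.Qbar := fun σ =>
    if h : ∃ s ∈ H, rs s = σ then (χ h.choose)⁻¹ else 0
  have hc : ∀ t ∈ H, c (rs t) = (χ t)⁻¹ := by
    intro t ht
    have h : ∃ s ∈ H, rs s = rs t := ⟨t, ht, rfl⟩
    have h1 : c (rs t) = (χ h.choose)⁻¹ := dif_pos h
    rw [h1, hwd _ h.choose_spec.1 t ht h.choose_spec.2]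
  have hc0 : ∀ σ, (¬ ∃ s ∈ H, rs s = σ) → c σ = 0 := fun σ h => dif_neg h
  have hkey : ∀ s ∈ H, ∀ σ, s (c σ) = χ s * c ((s : F8.Qbar →ₐ[ℚ] F8.Qbar).comp σ) := by
    intro s hs σ
    by_cases h : ∃ t ∈ H, rs t = σ
    · obtain ⟨t, ht, rfl⟩ := h
      rw [hc t ht, ← rs_mul, hc (s * t) (H.mul_mem hs ht), hcoc s hs t ht, map_inv₀]
      have h1 := hne s hs
      have h2 : s (χ t) ≠ 0 := (map_ne_zero _).2 (hne t ht)
      field_simp
    · rw [hc0 σ h, map_zero, hc0, mul_zero]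
      rintro ⟨t, ht, hts⟩
      apply h
      refine ⟨s⁻¹ * t, H.mul_mem (H.inv_mem hs) ht, ?_⟩
      rw [rs_mul, hts]
      ext x
      change s⁻¹ (s (σ x)) = σ x
      rw [← AlgEquiv.mul_apply, inv_mul_cancel, AlgEquiv.one_apply]
  -- independence of characters
  have hind := linearIndependent_toLinearMap ℚ L F8.Qbar
  have hex : ∃ a : L, ∑ σ, c σ * σ a ≠ 0 := by
    by_contra hcon
    push Not at hcon
    have h0 : ∑ σ, c σ • (AlgHom.toLinearMap σ : L →ₗ[ℚ] F8.Qbar) = 0 := by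
      ext a
      simp only [LinearMap.sum_apply, LinearMap.smul_apply, AlgHom.toLinearMap_apply, smul_eq_mul,
        LinearMap.zero_apply]
      exact hcon a
    have h1 := Fintype.linearIndependent_iff.1 hind c h0 (rs 1)
    rw [hc 1 H.one_mem] at h1
    exact inv_ne_zero (hne 1 H.one_mem) h1
  obtain ⟨a, ha⟩ := hex
  refine ⟨∑ σ, c σ * σ a, ha, ?_⟩
  intro s hs
  rw [map_sum, Finset.mul_sum]
  let e : (L →ₐ[ℚ] F8.Qbar) ≃ (L →ₐ[ℚ] F8.Qbar) :=
    { toFun := fun σ => (s : F8.Qbar →ₐ[ℚ] F8.Qbar).comp σ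
      invFun := fun σ => ((s⁻¹ : F8.Gam) : F8.Qbar →ₐ[ℚ] F8.Qbar).comp σ
      left_inv := fun σ => by
        ext x
        change s⁻¹ (s (σ x)) = σ x
        rw [← AlgEquiv.mul_apply, inv_mul_cancel, AlgEquiv.one_apply]
      right_inv := fun σ => by
        ext x
        change s (s⁻¹ (σ x)) = σ x
        rw [← AlgEquiv.mul_apply, mul_inv_cancel, AlgEquiv.one_apply] }
  refine Fintype.sum_equiv e _ _ ?_
  intro σ
  rw [map_mul, hkey s hs σ, mul_assoc]
  rfl
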