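import Pool.Agent.H15.F8.Targets

/-! # Module L7: value groups of `ℚ_p(ω, θ)` -/

namespace F8.L7

variable {p : ℕ} [Fact p.Prime]

/-- fixed by all automorphisms fixing `w` -/
def Fixw (w a : Om p) : Prop := ∀ g : Gp p, g w = w → g a = a

theorem w_cube {w : Om p} (hw : w ^ 2 + w + 1 = 0) : w ^ 3 = 1 := by
  linear_combination (w - 1) * hw

theorem norm_w {w : Om p} (hw : w ^ 2 + w + 1 = 0) : ‖w‖ = 1 := by
  have h := w_cube hw
  have h1 : ‖w‖ ^ 3 = 1 := by rw [← norm_pow, h, norm_one]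
  have h2 := norm_nonneg w
  nlinarith [sq_nonneg (‖w‖ - 1), sq_nonneg (‖w‖ + 1)]

theorem gp_w {w : Om p} (hw : w ^ 2 + w + 1 = 0) (g : Gp p) : g w = w ∨ g w = w ^ 2 := by
  have h : (g w) ^ 2 + g w + 1 = 0 := by
    have := congrArg g hw
    simpa using this
  have h2 : (g w - w) * (g w - w ^ 2) = 0 := by
    linear_combination h + (w - 1 - g w) * hw
  rcases mul_eq_zero.mp h2 with h | h
  · left; linear_combination h
  · right; linear_combination h

theorem norm_base (q : ℚ_[p]) (hq : q ≠ 0) :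
    ∃ m : ℤ, ‖algebraMap ℚ_[p] (Om p) q‖ = (p : ℝ) ^ m := by
  refine ⟨-q.valuation, ?_⟩
  have h1 : ‖algebraMap ℚ_[p] (Om p) q‖ = ‖q‖ := PadicAlgCl.norm_extends p q
  rw [h1, Padic.norm_eq_zpow_neg_valuation hq]

theorem fixed_base (a : Om p) (h : ∀ g : Gp p, g a = a) :
    ∃ q : ℚ_[p], a = algebraMap ℚ_[p] (Om p) q := by
  have : a ∈ (⊥ : IntermediateField ℚ_[p] (Om p)) := (mem_iff_fixed _ a).2 (fun g _ => h g)
  obtain ⟨q, hq⟩ := IntermediateField.mem_bot.1 this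
  exact ⟨q, hq.symm⟩

/-- value group of `ℚ_p(ω)`. -/
theorem val_fixw {w : Om p} (hw : w ^ 2 + w + 1 = 0) {a : Om p} (ha : Fixw w a) (h0 : a ≠ 0) :
    ∃ m : ℤ, ‖a‖ ^ 2 = (p : ℝ) ^ m := by
  have hp0 : (p : ℝ) ≠ 0 := by
    have := (Fact.out : p.Prime).pos; positivity
  by_cases hg : ∃ g : Gp p, g w = w ^ 2
  · obtain ⟨g, hg⟩ := hg
    have hw3 := w_cube hw
    have hw4 : (w ^ 2) ^ 2 = w := by linear_combination w * hw3
    have hgi : g⁻¹ (w ^ 2) = w := by
      rw [← hg, ← AlgEquiv.mul_apply, inv_mul_cancel, AlgEquiv.one_apply]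
    have hgg : ∀ x, g (g⁻¹ x) = x := fun x => by
      rw [← AlgEquiv.mul_apply, mul_inv_cancel, AlgEquiv.one_apply]
    have hfix : ∀ h : Gp p, h (a * g a) = a * g a := by
      intro h
      rcases gp_w hw h with hh | hh
      · have h1 : h a = a := ha h hh
        have h2 : (g⁻¹ * h * g) w = w := by
          rw [AlgEquiv.mul_apply, AlgEquiv.mul_apply, hg, map_pow, hh, hgi]
        have h3 := congrArg g (ha _ h2)
        rw [AlgEquiv.mul_apply, AlgEquiv.mul_apply, hgg] at h3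
        rw [map_mul, h1, h3]
      · have h1 : (g⁻¹ * h) w = w := by
          rw [AlgEquiv.mul_apply, hh, hgi]
        have h2 := congrArg g (ha _ h1)
        rw [AlgEquiv.mul_apply, hgg] at h2
        have h3 : (h * g) w = w := by
          rw [AlgEquiv.mul_apply, hg, map_pow, hh, hw4]
        have h4 := ha _ h3
        rw [AlgEquiv.mul_apply] at h4
        rw [map_mul, h2, h4, mul_comm]
    obtain ⟨q, hq⟩ := fixed_base _ hfix
    have hne : a * g a ≠ 0 := mul_ne_zero h0 ((map_ne_zero _).2 h0)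
    have hq0 : q ≠ 0 := by
      rintro rfl
      rw [map_zero] at hq
      exact hne hq
    obtain ⟨m, hm⟩ := norm_base q hq0
    refine ⟨m, ?_⟩
    rw [← hm, ← hq, norm_mul, norm_gal]; ring
  · have hfix : ∀ h : Gp p, h a = a := by
      intro h
      rcases gp_w hw h with hh | hh
      · exact ha h hh
      · exact absurd ⟨h, hh⟩ hg
    obtain ⟨q, hq⟩ := fixed_base _ hfix
    have hq0 : q ≠ 0 := by
      rintro rfl
      rw [map_zero] at hq
      exact h0 hq
    obtain ⟨m, hm⟩ := norm_base q hq0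
    refine ⟨m * 2, ?_⟩
    rw [hq, hm, ← zpow_natCast, ← zpow_mul]
    norm_num

theorem norm_sum3_le {x y z : Om p} {M : ℝ} (hx : ‖x‖ ≤ M) (hy : ‖y‖ ≤ M) (hz : ‖z‖ ≤ M) :
    ‖x + y + z‖ ≤ M :=
  (IsUltrametricDist.norm_add_le_max _ _).trans
    (max_le ((IsUltrametricDist.norm_add_le_max _ _).trans (max_le hx hy)) hz)

/-- coefficient functions of Lagrange interpolation -/
noncomputable def cc (x0 x1 x2 v0 v1 v2 : Om p) : Om p :=
  x0 / ((v0 - v1) * (v0 - v2)) + x1 / ((v1 - v0) * (v1 - v2)) + x2 / ((v2 - v0) * (v2 - v1))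

noncomputable def cb (x0 x1 x2 v0 v1 v2 : Om p) : Om p :=
  x0 * (v1 + v2) / ((v0 - v1) * (v0 - v2)) + x1 * (v0 + v2) / ((v1 - v0) * (v1 - v2)) +
    x2 * (v0 + v1) / ((v2 - v0) * (v2 - v1))

noncomputable def ca (x0 x1 x2 v0 v1 v2 : Om p) : Om p :=
  x0 * (v1 * v2) / ((v0 - v1) * (v0 - v2)) + x1 * (v0 * v2) / ((v1 - v0) * (v1 - v2)) +
    x2 * (v0 * v1) / ((v2 - v0) * (v2 - v1))

theorem interp (x0 x1 x2 v0 v1 v2 : Om p) (h01 : v0 - v1 ≠ 0) (h02 : v0 - v2 ≠ 0)
    (h12 : v1 - v2 ≠ 0) :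
    x0 = ca x0 x1 x2 v0 v1 v2 - cb x0 x1 x2 v0 v1 v2 * v0 + cc x0 x1 x2 v0 v1 v2 * v0 ^ 2 := by
  have h10 : v1 - v0 ≠ 0 := fun h => h01 (by linear_combination -h)
  have h20 : v2 - v0 ≠ 0 := fun h => h02 (by linear_combination -h)
  have h21 : v2 - v1 ≠ 0 := fun h => h12 (by linear_combination -h)
  unfold ca cb cc
  field_simp
  ring

theorem cc_rot (x0 x1 x2 v0 v1 v2 : Om p) : cc x1 x2 x0 v1 v2 v0 = cc x0 x1 x2 v0 v1 v2 := by
  unfold cc; ring

theorem cb_rot (x0 x1 x2 v0 v1 v2 : Om p) : cb x1 x2 x0 v1 v2 v0 = cb x0 x1 x2 v0 v1 v2 := by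
  unfold cb; ring

theorem ca_rot (x0 x1 x2 v0 v1 v2 : Om p) : ca x1 x2 x0 v1 v2 v0 = ca x0 x1 x2 v0 v1 v2 := by
  unfold ca; ring

/-- the core of the argument: a unit-discriminant generator. -/
theorem val_of_gen {w T V : Om p} (hw : w ^ 2 + w + 1 = 0) (g : Gp p) (hgw : g w = w)
    (hgT : g T = w * T) (hT : ∀ h : Gp p, h w = w → ∃ j : ℕ, h T = w ^ j * T)
    (hV : ∀ h : Gp p, h w = w → h T = T → h V = V) (hV1 : ‖V‖ ≤ 1)
    (h01 : ‖V - g V‖ = 1) (h02 : ‖V - g (g V)‖ = 1) (h12 : ‖g V - g (g V)‖ = 1)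
    {t : Om p} (ht : ∀ h : Gp p, h w = w → h T = T → h t = t) (ht0 : t ≠ 0) :
    ∃ m : ℤ, ‖t‖ ^ 2 = (p : ℝ) ^ m := by
  have hw3 := w_cube hw
  have gpow_w : ∀ n : ℕ, (g ^ n) w = w := by
    intro n
    induction n with
    | zero => rw [pow_zero, AlgEquiv.one_apply]
    | succ n ih => rw [pow_succ, AlgEquiv.mul_apply, hgw, ih]
  have gpow_T : ∀ n : ℕ, (g ^ n) T = w ^ n * T := by
    intro n
    induction n with
    | zero => rw [pow_zero, AlgEquiv.one_apply, pow_zero, one_mul]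
    | succ n ih => rw [pow_succ, AlgEquiv.mul_apply, hgT, map_mul, gpow_w, ih]; ring
  -- an automorphism acts on elements of the field as a power of `g`
  have act : ∀ (n : ℕ) (s : Gp p), s w = w → s T = w ^ n * T → ∀ x : Om p,
      (∀ h : Gp p, h w = w → h T = T → h x = x) → s x = (g ^ n) x := by
    intro n s hs hsT x hx
    have hinv : ∀ y : Om p, (g ^ n)⁻¹ ((g ^ n) y) = y := fun y => by
      rw [← AlgEquiv.mul_apply, inv_mul_cancel, AlgEquiv.one_apply]
    have hinv' : ∀ y : Om p, (g ^ n) ((g ^ n)⁻¹ y) = y := fun y => by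
      rw [← AlgEquiv.mul_apply, mul_inv_cancel, AlgEquiv.one_apply]
    have h1 : ((g ^ n)⁻¹ * s) w = w := by
      rw [AlgEquiv.mul_apply, hs]
      conv_lhs => rw [← gpow_w n]
      rw [hinv]
    have h2 : ((g ^ n)⁻¹ * s) T = T := by
      rw [AlgEquiv.mul_apply, hsT, ← gpow_T n, hinv]
    have h3 := congrArg (g ^ n) (hx _ h1 h2)
    rw [AlgEquiv.mul_apply, hinv'] at h3
    exact h3
  have act3 : ∀ x : Om p, (∀ h : Gp p, h w = w → h T = T → h x = x) → g (g (g x)) = x := by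
    intro x hx
    have h1 := hx (g ^ 3) (gpow_w 3) (by rw [gpow_T, hw3, one_mul])
    rw [pow_succ, pow_succ, pow_one, AlgEquiv.mul_apply, AlgEquiv.mul_apply] at h1
    exact h1
  have hrot : ∀ s : Gp p, s w = w → (∀ x : Om p, (∀ h : Gp p, h w = w → h T = T → h x = x) →
      (s x = x ∧ s (g x) = g x ∧ s (g (g x)) = g (g x)) ) ∨
      (∀ x : Om p, (∀ h : Gp p, h w = w → h T = T → h x = x) →
      (s x = g x ∧ s (g x) = g (g x) ∧ s (g (g x)) = x)) ∨
      (∀ x : Om p, (∀ h : Gp p, h w = w → h T = T → h x = x) →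
      (s x = g (g x) ∧ s (g x) = x ∧ s (g (g x)) = g x)) := by
    intro s hs
    obtain ⟨j, hj⟩ := hT s hs
    -- reduce `j` modulo 3
    have hj3 : s T = w ^ (j % 3) * T := by
      rw [hj]
      conv_lhs => rw [← Nat.div_add_mod j 3, pow_add, pow_mul, hw3, one_pow, one_mul]
    have hs1 : (s * g) w = w := by rw [AlgEquiv.mul_apply, hgw, hs]
    have hs2 : (s * g * g) w = w := by rw [AlgEquiv.mul_apply, hgw, hs1]
    have hsT1 : (s * g) T = w ^ (j % 3 + 1) * T := by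
      rw [AlgEquiv.mul_apply, hgT, map_mul, hs, hj3]; ring
    have hsT2 : (s * g * g) T = w ^ (j % 3 + 2) * T := by
      rw [AlgEquiv.mul_apply, hgT, map_mul, hs1, hsT1]; ring
    have hlt : j % 3 < 3 := Nat.mod_lt _ (by norm_num)
    generalize j % 3 = k at *
    have a0 := act k s hs hj3
    have a1 := act (k + 1) (s * g) hs1 hsT1
    have a2 := act (k + 2) (s * g * g) hs2 hsT2
    interval_cases k
    · left; intro x hx
      have b0 := a0 x hx
      have b1 := a1 x hx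
      have b2 := a2 x hx
      simp only [AlgEquiv.mul_apply, pow_zero, AlgEquiv.one_apply, zero_add, pow_one, pow_two] at b0 b1 b2
      exact ⟨b0, b1, b2⟩
    · right; left; intro x hx
      have b0 := a0 x hx
      have b1 := a1 x hx
      have b2 := a2 x hx
      simp only [AlgEquiv.mul_apply, pow_succ, pow_zero, one_mul] at b0 b1 b2
      exact ⟨b0, b1, by rw [b2, act3 x hx]⟩
    · right; right; intro x hx
      have b0 := a0 x hx
      have b1 := a1 x hx
      have b2 := a2 x hx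
      simp only [AlgEquiv.mul_apply, pow_succ, pow_zero, one_mul] at b0 b1 b2
      exact ⟨b0, by rw [b1, act3 x hx], by rw [b2, act3 x hx]⟩
  set a := ca t (g t) (g (g t)) V (g V) (g (g V)) with ha
  set b := cb t (g t) (g (g t)) V (g V) (g (g V)) with hb
  set c := cc t (g t) (g (g t)) V (g V) (g (g V)) with hc
  have fa : Fixw w a := by
    intro s hs
    rw [ha]
    unfold ca
    simp only [map_add, map_div₀, map_mul, map_sub]
    rcases hrot s hs with h | h | h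
    · rw [(h t ht).1, (h t ht).2.1, (h t ht).2.2, (h V hV).1, (h V hV).2.1, (h V hV).2.2]
    · rw [(h t ht).1, (h t ht).2.1, (h t ht).2.2, (h V hV).1, (h V hV).2.1, (h V hV).2.2]
      exact ca_rot _ _ _ _ _ _
    · rw [(h t ht).1, (h t ht).2.1, (h t ht).2.2, (h V hV).1, (h V hV).2.1, (h V hV).2.2]
      exact (ca_rot (g (g t)) t (g t) (g (g V)) V (g V)).symm
  have fb : Fixw w b := by
    intro s hs
    rw [hb]
    unfold cb
    simp only [map_add, map_div₀, map_mul, map_sub]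
    rcases hrot s hs with h | h | h
    · rw [(h t ht).1, (h t ht).2.1, (h t ht).2.2, (h V hV).1, (h V hV).2.1, (h V hV).2.2]
    · rw [(h t ht).1, (h t ht).2.1, (h t ht).2.2, (h V hV).1, (h V hV).2.1, (h V hV).2.2]
      exact cb_rot _ _ _ _ _ _
    · rw [(h t ht).1, (h t ht).2.1, (h t ht).2.2, (h V hV).1, (h V hV).2.1, (h V hV).2.2]
      exact (cb_rot (g (g t)) t (g t) (g (g V)) V (g V)).symm
  have fc : Fixw w c := by
    intro s hs
    rw [hc]
    unfold cc
    simp only [map_add, map_div₀, map_mul, map_sub]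
    rcases hrot s hs with h | h | h
    · rw [(h t ht).1, (h t ht).2.1, (h t ht).2.2, (h V hV).1, (h V hV).2.1, (h V hV).2.2]
    · rw [(h t ht).1, (h t ht).2.1, (h t ht).2.2, (h V hV).1, (h V hV).2.1, (h V hV).2.2]
      exact cc_rot _ _ _ _ _ _
    · rw [(h t ht).1, (h t ht).2.1, (h t ht).2.2, (h V hV).1, (h V hV).2.1, (h V hV).2.2]
      exact (cc_rot (g (g t)) t (g t) (g (g V)) V (g V)).symm
  -- norms
  have n10 : ‖g V - V‖ = 1 := by rw [← norm_neg, neg_sub]; exact h01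
  have n20 : ‖g (g V) - V‖ = 1 := by rw [← norm_neg, neg_sub]; exact h02
  have n21 : ‖g (g V) - g V‖ = 1 := by rw [← norm_neg, neg_sub]; exact h12
  have nt1 : ‖g t‖ = ‖t‖ := norm_gal g t
  have nt2 : ‖g (g t)‖ = ‖t‖ := by rw [norm_gal, norm_gal]
  have nV1 : ‖g V‖ ≤ 1 := by rw [norm_gal]; exact hV1
  have nV2 : ‖g (g V)‖ ≤ 1 := by rw [norm_gal, norm_gal]; exact hV1
  have nadd : ∀ x y : Om p, ‖x‖ ≤ 1 → ‖y‖ ≤ 1 → ‖x + y‖ ≤ 1 := fun x y hx hy =>
    (IsUltrametricDist.norm_add_le_max _ _).trans (max_le hx hy)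
  have nmul : ∀ x y : Om p, ‖x‖ ≤ 1 → ‖y‖ ≤ 1 → ‖x * y‖ ≤ 1 := fun x y hx hy => by
    rw [norm_mul]; exact mul_le_one₀ hx (norm_nonneg _) hy
  have nmt : ∀ x y : Om p, ‖x‖ = ‖t‖ → ‖y‖ ≤ 1 → ‖x * y‖ ≤ ‖t‖ := fun x y hx hy => by
    rw [norm_mul, hx]; exact mul_le_of_le_one_right (norm_nonneg _) hy
  have na : ‖a‖ ≤ ‖t‖ := by
    rw [ha]; unfold ca
    apply norm_sum3_le
    · rw [norm_div, norm_mul (V - g V), h01, h02, mul_one, div_one]
      exact nmt _ _ rfl (nmul _ _ nV1 nV2)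
    · rw [norm_div, norm_mul (g V - V), n10, h12, mul_one, div_one]
      exact nmt _ _ nt1 (nmul _ _ hV1 nV2)
    · rw [norm_div, norm_mul (g (g V) - V), n20, n21, mul_one, div_one]
      exact nmt _ _ nt2 (nmul _ _ hV1 nV1)
  have nb : ‖b‖ ≤ ‖t‖ := by
    rw [hb]; unfold cb
    apply norm_sum3_le
    · rw [norm_div, norm_mul (V - g V), h01, h02, mul_one, div_one]
      exact nmt _ _ rfl (nadd _ _ nV1 nV2)
    · rw [norm_div, norm_mul (g V - V), n10, h12, mul_one, div_one]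
      exact nmt _ _ nt1 (nadd _ _ hV1 nV2)
    · rw [norm_div, norm_mul (g (g V) - V), n20, n21, mul_one, div_one]
      exact nmt _ _ nt2 (nadd _ _ hV1 nV1)
  have nc : ‖c‖ ≤ ‖t‖ := by
    rw [hc]; unfold cc
    apply norm_sum3_le
    · rw [norm_div, norm_mul (V - g V), h01, h02, mul_one, div_one]
    · rw [norm_div, norm_mul (g V - V), n10, h12, mul_one, div_one, nt1]
    · rw [norm_div, norm_mul (g (g V) - V), n20, n21, mul_one, div_one, nt2]
  have hne01 : V - g V ≠ 0 := by intro h; rw [h, norm_zero] at h01; norm_num at h01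
  have hne02 : V - g (g V) ≠ 0 := by intro h; rw [h, norm_zero] at h02; norm_num at h02
  have hne12 : g V - g (g V) ≠ 0 := by intro h; rw [h, norm_zero] at h12; norm_num at h12
  have hint := interp t (g t) (g (g t)) V (g V) (g (g V)) hne01 hne02 hne12
  rw [← ha, ← hb, ← hc] at hint
  have htpos : 0 < ‖t‖ := norm_pos_iff.2 ht0
  -- one of the coefficients has the norm of `t`
  have hor : ‖a‖ = ‖t‖ ∨ ‖b‖ = ‖t‖ ∨ ‖c‖ = ‖t‖ := by
    by_contra hcon
    push Not at hcon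
    obtain ⟨k1, k2, k3⟩ := hcon
    have l1 := lt_of_le_of_ne na k1
    have l2 := lt_of_le_of_ne nb k2
    have l3 := lt_of_le_of_ne nc k3
    have m2 : ‖b * V‖ < ‖t‖ := by
      rw [norm_mul]; exact (mul_le_of_le_one_right (norm_nonneg _) hV1).trans_lt l2
    have m3 : ‖c * V ^ 2‖ < ‖t‖ := by
      rw [norm_mul, norm_pow]
      exact (mul_le_of_le_one_right (norm_nonneg _) (pow_le_one₀ (norm_nonneg _) hV1)).trans_lt l3
    have : ‖t‖ < ‖t‖ := by
      conv_lhs => rw [hint]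
      rw [sub_eq_add_neg]
      refine (IsUltrametricDist.norm_add_le_max _ _).trans_lt (max_lt ?_ m3)
      refine (IsUltrametricDist.norm_add_le_max _ _).trans_lt (max_lt l1 ?_)
      rw [norm_neg]; exact m2
    exact lt_irrefl _ this
  rcases hor with h | h | h
  · rw [← h]
    refine val_fixw hw fa ?_
    intro h0; rw [h0, norm_zero] at h; exact htpos.ne h
  · rw [← h]
    refine val_fixw hw fb ?_
    intro h0; rw [h0, norm_zero] at h; exact htpos.ne h
  · rw [← h]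
    refine val_fixw hw fc ?_
    intro h0; rw [h0, norm_zero] at h; exact htpos.ne h

theorem norm_natCast' (n : ℕ) : ‖(n : Om p)‖ = ‖(n : ℚ_[p])‖ := by
  have h2 := PadicAlgCl.norm_extends p ((n : ℕ) : ℚ_[p])
  rw [← h2, map_natCast]

theorem norm_natCast_le (n : ℕ) : ‖(n : Om p)‖ ≤ 1 := IsUltrametricDist.norm_natCast_le_one (Om p) n

theorem norm_one_sub {w : Om p} (hw : w ^ 2 + w + 1 = 0) : ‖1 - w‖ ^ 2 = ‖(3 : Om p)‖ := by
  have h1 : (3 : Om p) = (1 - w) * (1 - w) * (-w ^ 2) := by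
    linear_combination (w ^ 2 - 3 * w + 3) * hw
  rw [h1, norm_mul, norm_mul, norm_neg, norm_pow, norm_w hw]; ring

theorem norm_18031 (h13 : p ≠ 13) (h73 : p ≠ 73) (h19 : p ≠ 19) : ‖(18031 : Om p)‖ = 1 := by
  have h1 : ‖((18031 : ℕ) : Om p)‖ = 1 := by
    rw [norm_natCast', Padic.norm_natCast_eq_one_iff]
    have hp := (Fact.out : p.Prime)
    rw [Nat.Prime.coprime_iff_not_dvd hp]
    intro hdvd
    have e : (18031 : ℕ) = 13 * 73 * 19 := by norm_num
    rw [e, hp.dvd_mul, hp.dvd_mul] at hdvd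
    rcases hdvd with (h | h) | h
    · exact h13 ((Nat.prime_dvd_prime_iff_eq hp (by norm_num)).1 h)
    · exact h73 ((Nat.prime_dvd_prime_iff_eq hp (by norm_num)).1 h)
    · exact h19 ((Nat.prime_dvd_prime_iff_eq hp (by norm_num)).1 h)
  exact_mod_cast h1

theorem norm_three (h3 : p ≠ 3) : ‖(3 : Om p)‖ = 1 := by
  have h1 : ‖((3 : ℕ) : Om p)‖ = 1 := by
    rw [norm_natCast', Padic.norm_natCast_eq_one_iff]
    have hp := (Fact.out : p.Prime)
    rw [Nat.coprime_primes hp (by norm_num)]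
    exact h3
  exact_mod_cast h1

theorem i_w (i : Qbar →+* Om p) : (i om) ^ 2 + i om + 1 = 0 := by
  have := congrArg i om_spec
  simpa using this

theorem i_ka (i : Qbar →+* Om p) : (i th) ^ 3 = 18031 * (10 - 129 * i om) := by
  rw [← map_pow, th_spec]
  unfold ka
  simp [map_ofNat]

theorem norm_T {i : Qbar →+* Om p} (h13 : p ≠ 13) (h73 : p ≠ 73) (h19 : p ≠ 19) :
    ‖i th‖ = 1 := by
  have hw := i_w i
  have hk := i_ka i
  have hN := norm_18031 h13 h73 h19
  set w := i om with hwdef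
  have hw1 := norm_w hw
  have l1 : ‖(10 - 129 * w : Om p)‖ ≤ 1 := by
    rw [sub_eq_add_neg]
    refine (IsUltrametricDist.norm_add_le_max _ _).trans (max_le ?_ ?_)
    · exact_mod_cast norm_natCast_le (p := p) 10
    · rw [norm_neg, norm_mul, hw1, mul_one]
      exact_mod_cast norm_natCast_le (p := p) 129
  have l2 : ‖(10 - 129 * w ^ 2 : Om p)‖ ≤ 1 := by
    rw [sub_eq_add_neg]
    refine (IsUltrametricDist.norm_add_le_max _ _).trans (max_le ?_ ?_)
    · exact_mod_cast norm_natCast_le (p := p) 10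
    · rw [norm_neg, norm_mul, norm_pow, hw1, one_pow, mul_one]
      exact_mod_cast norm_natCast_le (p := p) 129
  have hprod : (10 - 129 * w) * (10 - 129 * w ^ 2) = (18031 : Om p) := by
    linear_combination (16641 * w - 17931) * hw
  have h1 : ‖(10 - 129 * w : Om p)‖ * ‖(10 - 129 * w ^ 2 : Om p)‖ = 1 := by
    rw [← norm_mul, hprod, hN]
  have h2 : ‖(10 - 129 * w : Om p)‖ = 1 := by
    apply le_antisymm l1
    have := norm_nonneg (10 - 129 * w : Om p)
    nlinarith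
  have h3 : ‖i th‖ ^ 3 = 1 := by
    rw [← norm_pow, hk, norm_mul, hN, h2, one_mul]
  have h4 := norm_nonneg (i th)
  nlinarith [sq_nonneg (‖i th‖ - 1), sq_nonneg (‖i th‖ + 1)]

/-- action on a cube root -/
theorem act_T {w T : Om p} (hw : w ^ 2 + w + 1 = 0) {h : Gp p}
    (hT3 : h (T ^ 3) = T ^ 3) : h T = T ∨ h T = w * T ∨ h T = w ^ 2 * T := by
  have h1 : (h T - T) * ((h T - w * T) * (h T - w ^ 2 * T)) = 0 := by
    have h2 : (h T) ^ 3 = T ^ 3 := by rw [← map_pow]; exact hT3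
    linear_combination h2 - (T * (h T) ^ 2 - w * T ^ 2 * h T + (w - 1) * T ^ 3) * hw
  rcases mul_eq_zero.mp h1 with h | h
  · left; linear_combination h
  · rcases mul_eq_zero.mp h with h | h
    · right; left; linear_combination h
    · right; right; linear_combination h

theorem v_one : VStmt 1 := by
  intro p _ _ _ _ i t ht ht0
  refine val_fixw (i_w i) ?_ ht0
  intro g hg
  exact (mem_FF_iff i 1 t).1 ht g hg (by rw [map_one, map_one])

/-- the generator at `p = 3` -/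
theorem exists_gen_three {w T : Om p} (h3 : ‖(3 : Om p)‖ = 1 / 3) (hw : w ^ 2 + w + 1 = 0)
    (hT : T ^ 3 = 18031 * (10 - 129 * w)) : ∃ j : ℕ, ‖w ^ j * T - 1‖ ≤ ‖1 - w‖ := by
  have hd2 := norm_one_sub hw
  rw [h3] at hd2
  have hd0 := norm_nonneg (1 - w)
  have hd1 : ‖1 - w‖ ≤ 1 := by nlinarith
  have hw3 := w_cube hw
  have hprod : (T - 1) * ((w * T - 1) * (w ^ 2 * T - 1)) = T ^ 3 - 1 := by
    linear_combination ((w - 1) * T ^ 3 - w * T ^ 2 + T) * hw
  have hdec : T ^ 3 - 1 = -(2145690 : Om p) + 18031 * 129 * (1 - w) := by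
    rw [hT]; ring
  have n1 : ‖(2145690 : Om p)‖ ≤ ‖1 - w‖ ^ 3 := by
    have e : (2145690 : Om p) = 3 * 3 * ((238410 : ℕ) : Om p) := by norm_num
    rw [e, norm_mul, norm_mul, h3]
    have hn : ‖((238410 : ℕ) : Om p)‖ ≤ 1 := norm_natCast_le (p := p) 238410
    have hd3 : ‖1 - w‖ ^ 3 = ‖1 - w‖ ^ 2 * ‖1 - w‖ := by ring
    rw [hd3, hd2]
    have h13 : (1 : ℝ) / 3 ≤ ‖1 - w‖ := by nlinarith
    refine (mul_le_mul_of_nonneg_left hn (by norm_num : (0 : ℝ) ≤ 1 / 3 * (1 / 3))).trans ?_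
    linarith
  have n2 : ‖(18031 * 129 * (1 - w) : Om p)‖ ≤ ‖1 - w‖ ^ 3 := by
    have e : (18031 * 129 * (1 - w) : Om p) = 3 * ((775333 : ℕ) : Om p) * (1 - w) := by
      push_cast; ring
    rw [e, norm_mul, norm_mul, h3]
    have hn : ‖((775333 : ℕ) : Om p)‖ ≤ 1 := norm_natCast_le (p := p) 775333
    have hd3 : ‖1 - w‖ ^ 3 = ‖1 - w‖ ^ 2 * ‖1 - w‖ := by ring
    rw [hd3, hd2]
    refine mul_le_mul_of_nonneg_right ?_ hd0
    refine (mul_le_mul_of_nonneg_left hn (by norm_num : (0 : ℝ) ≤ 1 / 3)).trans ?_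
    norm_num
  have n3 : ‖T ^ 3 - 1‖ ≤ ‖1 - w‖ ^ 3 := by
    rw [hdec]
    refine (IsUltrametricDist.norm_add_le_max _ _).trans (max_le ?_ n2)
    rw [norm_neg]; exact n1
  by_contra hcon
  push Not at hcon
  have c0 := hcon 0
  have c1 := hcon 1
  have c2 := hcon 2
  rw [pow_zero, one_mul] at c0
  rw [pow_one] at c1
  rw [← hprod, norm_mul, norm_mul] at n3
  have k1 : ‖1 - w‖ * ‖1 - w‖ < ‖w * T - 1‖ * ‖w ^ 2 * T - 1‖ :=
    mul_lt_mul'' c1 c2 hd0 hd0
  have k2 : ‖1 - w‖ * (‖1 - w‖ * ‖1 - w‖) < ‖T - 1‖ * (‖w * T - 1‖ * ‖w ^ 2 * T - 1‖) :=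
    mul_lt_mul'' c0 k1 hd0 (mul_nonneg hd0 hd0)
  have : ‖1 - w‖ * (‖1 - w‖ * ‖1 - w‖) = ‖1 - w‖ ^ 3 := by ring
  linarith

theorem v_th : VStmt th := by
  intro p _ h13 h73 h19 i t ht ht0
  have hw := i_w i
  have hk := i_ka i
  have hTn := norm_T (i := i) h13 h73 h19
  have ht' := (mem_FF_iff i th t).1 ht
  set w := i om with hwdef
  set T := i th with hTdef
  have hw1 := norm_w hw
  have hw3 := w_cube hw
  have hT3 : ∀ h : Gp p, h w = w → h (T ^ 3) = T ^ 3 := by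
    intro h hh
    rw [hk, map_mul, map_sub, map_mul, hh, map_ofNat, map_ofNat, map_ofNat]
  have hact := fun (h : Gp p) (hh : h w = w) => act_T hw (hT3 h hh)
  by_cases hall : ∀ h : Gp p, h w = w → h T = T
  · exact val_fixw hw (fun g hg => ht' g hg (hall g hg)) ht0
  push Not at hall
  obtain ⟨h, hh, hhT⟩ := hall
  obtain ⟨g, hgw, hgT⟩ : ∃ g : Gp p, g w = w ∧ g T = w * T := by
    rcases hact h hh with h1 | h1 | h1
    · exact absurd h1 hhT
    · exact ⟨h, hh, h1⟩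
    · refine ⟨h * h, by rw [AlgEquiv.mul_apply, hh, hh], ?_⟩
      rw [AlgEquiv.mul_apply, h1, map_mul, map_pow, hh, h1]
      linear_combination w * T * hw3
  have hTj : ∀ h : Gp p, h w = w → ∃ j : ℕ, h T = w ^ j * T := by
    intro h hh
    rcases hact h hh with h1 | h1 | h1
    · exact ⟨0, by rw [h1, pow_zero, one_mul]⟩
    · exact ⟨1, by rw [h1, pow_one]⟩
    · exact ⟨2, h1⟩
  have hT1 : ‖T‖ = 1 := hTn
  have hggT : g (g T) = w ^ 2 * T := by rw [hgT, map_mul, hgw, hgT]; ring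
  have n1w2 : ‖(1 : Om p) - w ^ 2‖ = ‖1 - w‖ := by
    have : (1 : Om p) - w ^ 2 = (1 - w) * (-w ^ 2) := by linear_combination (1 - w) * hw
    rw [this, norm_mul, norm_neg, norm_pow, hw1]; ring
  by_cases hp3 : p = 3
  · have h3 : ‖(3 : Om p)‖ = 1 / 3 := by
      have h1 : ‖((p : ℕ) : Om p)‖ = (p : ℝ)⁻¹ := by
        rw [norm_natCast', Padic.norm_p]
      have h2 : ((p : ℕ) : Om p) = ((3 : ℕ) : Om p) := congrArg (Nat.cast) hp3
      have h5 : (p : ℝ) = 3 := by exact_mod_cast hp3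
      rw [h2, h5] at h1
      rw [one_div]
      exact_mod_cast h1
    obtain ⟨j, hj⟩ := exists_gen_three h3 hw hk
    set U := w ^ j * T with hU
    have hU1 : ‖U‖ = 1 := by rw [hU, norm_mul, norm_pow, hw1, one_pow, one_mul, hT1]
    have hgU : g U = w * U := by rw [hU, map_mul, map_pow, hgw, hgT]; ring
    have hd2 := norm_one_sub hw
    rw [h3] at hd2
    have hd0 : 0 < ‖1 - w‖ := by
      rcases (norm_nonneg (1 - w)).lt_or_eq with h | h
      · exact h
      · rw [← h] at hd2; norm_num at hd2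
    have hne : (1 : Om p) - w ≠ 0 := norm_pos_iff.1 hd0
    have hgV : g ((U - 1) / (1 - w)) = (w * U - 1) / (1 - w) := by
      rw [map_div₀, map_sub, map_sub, map_one, hgw, hgU]
    have hggV : g (g ((U - 1) / (1 - w))) = (w ^ 2 * U - 1) / (1 - w) := by
      rw [hgV, map_div₀, map_sub, map_sub, map_one, hgw, map_mul, hgw, hgU]; ring
    refine val_of_gen (V := (U - 1) / (1 - w)) hw g hgw hgT hTj ?_ ?_ ?_ ?_ ?_ ht' ht0
    · intro s hs hsT
      rw [map_div₀, map_sub, map_sub, map_one, hs, hU, map_mul, map_pow, hs, hsT]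
    · rw [norm_div, div_le_one hd0]; exact hj
    · rw [hgV]
      have : (U - 1) / (1 - w) - (w * U - 1) / (1 - w) = U := by field_simp; ring
      rw [this, hU1]
    · rw [hggV]
      have : (U - 1) / (1 - w) - (w ^ 2 * U - 1) / (1 - w) = -w ^ 2 * U := by
        field_simp
        linear_combination -U * (w - 1) * hw
      rw [this, norm_mul, norm_neg, norm_pow, hw1, hU1]; ring
    · rw [hgV]
      have e : g ((w * U - 1) / (1 - w)) = (w ^ 2 * U - 1) / (1 - w) := by rw [← hgV]; exact hggV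
      rw [e]
      have : (w * U - 1) / (1 - w) - (w ^ 2 * U - 1) / (1 - w) = w * U := by field_simp; ring
      rw [this, norm_mul, hw1, hU1]; ring
  · have h3 : ‖(3 : Om p)‖ = 1 := norm_three hp3
    have hd2 := norm_one_sub hw
    rw [h3] at hd2
    have hd : ‖1 - w‖ = 1 := by
      have := norm_nonneg (1 - w)
      nlinarith
    refine val_of_gen (V := T) hw g hgw hgT hTj (fun s _ hsT => hsT) hT1.le ?_ ?_ ?_ ht' ht0
    · rw [hgT]
      have : T - w * T = (1 - w) * T := by ring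
      rw [this, norm_mul, hd, hT1]; ring
    · rw [hggT]
      have : T - w ^ 2 * T = (1 - w ^ 2) * T := by ring
      rw [this, norm_mul, n1w2, hd, hT1]; ring
    · rw [hggT, hgT]
      have : w * T - w ^ 2 * T = w * ((1 - w) * T) := by ring
      rw [this, norm_mul, norm_mul, hw1, hd, hT1]; ring

end F8.L7

theorem F8.vStmts : F8.VStmt F8.th ∧ F8.VStmt 1 := ⟨F8.L7.v_th, F8.L7.v_one⟩
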